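import Pool.Agent.Q4.SPC.Stm4
import Pool.Agent.Q4.GLC.Loc

/-! Project SPC (helper4), job LG: the decomposition of a matrix at a place for `GL_n`. -/

set_option autoImplicit false

open IsDedekindDomain NumberField Matrix Q4.GLC
open Classical

noncomputable section

namespace Pool.Agent.Q25.SPC

theorem lg : Q4.SPC.LG := by
  intro F _ _ n v g hg
  let A : GL (Fin n) (Cnt.Ov v) :=
    { val := Cnt.loc v g.1 fun i j => (hg i j).1
      inv := Cnt.loc v g⁻¹.1 fun i j => (hg i j).2
      val_inv := by
        rw [← Cnt.loc_mul v _ _ _ _ (fun i j => by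
          rw [← Units.val_mul, mul_inv_cancel, Units.val_one, Cnt.entry_one]
          exact Cnt.entry_one_int v i j)]
        rw [Cnt.loc_congr v _ 1 (by rw [← Units.val_mul, mul_inv_cancel, Units.val_one]) _
          (fun i j => by rw [Cnt.entry_one]; exact Cnt.entry_one_int v i j)]
        exact Cnt.loc_one v _
      inv_val := by
        rw [← Cnt.loc_mul v _ _ _ _ (fun i j => by
          rw [← Units.val_mul, inv_mul_cancel, Units.val_one, Cnt.entry_one]
          exact Cnt.entry_one_int v i j)]
        rw [Cnt.loc_congr v _ 1 (by rw [← Units.val_mul, inv_mul_cancel, Units.val_one]) _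
          (fun i j => by rw [Cnt.entry_one]; exact Cnt.entry_one_int v i j)]
        exact Cnt.loc_one v _ }
  have hv : (g * (Cnt.Lam n v A)⁻¹).1.map (Cnt.ev v) = 1 := by
    rw [Units.val_mul, Cnt.Lam_inv_val, Matrix.map_mul, Cnt.lift_self]
    change g.1.map (Cnt.ev v) * (Cnt.loc v g⁻¹.1 _).map (Cnt.Ov v).subtype = 1
    rw [Cnt.loc_map, ← Matrix.map_mul, ← Units.val_mul, mul_inv_cancel, Units.val_one,
      Cnt.map_one']
  have key : ∀ (x y : Gf F n), x.1.map (Cnt.ev v) = 1 →
      (∀ w, w ≠ v → y.1.map (Cnt.ev w) = 1) → x * y = y * x := by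
    intro x y hx hy
    apply Units.ext
    apply Cnt.mat_ext
    intro w
    rw [Units.val_mul, Units.val_mul, Matrix.map_mul, Matrix.map_mul]
    by_cases hw : w = v
    · subst hw
      rw [hx, one_mul, mul_one]
    · rw [hy w hw, one_mul, mul_one]
  refine ⟨g * (Cnt.Lam n v A)⁻¹, Cnt.Lam n v A, Cnt.Lam_mem v A, by group, ?_, ?_⟩
  · intro h hh
    refine key _ _ hv fun w hw => ?_
    rw [← Cnt.map_one' (F := F) (n := n) w]
    refine Matrix.ext fun i j => ?_
    exact hh w hw i j
  · intro hdet
    rw [Cnt.Lam_val]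
    apply Cnt.det_lift_one
    apply Subtype.ext
    change ((Cnt.loc v g.1 fun i j => (hg i j).1).det : v.adicCompletion F) = 1
    rw [Cnt.det_loc, hdet]
    rfl

end Pool.Agent.Q25.SPC

end
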